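import Pool.Agent.N558.CV.Min

/-!
# CV/CUR: the components of the space curve (helper558)
-/

set_option autoImplicit false

open Polynomial FF Pool.Agent.W603.LV IntermediateField IsDedekindDomain

namespace Pool.Agent.N558.CV

open Pool.Agent.N162.CV

section

variable {k : Type} [Field k] (b : Bd k)

variable {A B : MvPolynomial (Fin 2) k} (hA : MonicY A) (hB : MonicY B)
  (hy : aeval b.y (eqn A) = 0) (hz : aeval b.z (eqn B) = 0)

/-- the equation of the projection -/
noncomputable def Bd.G (t : k) : MvPolynomial (Fin 2) k := Bivariate.equivMvPolynomial k (b.P t)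

include hA hB hy hz in
lemma Bd.G_coeff_top (t : k) :
    (b.G t).coeff (Finsupp.single 1 (b.P t).natDegree) = 1 := by
  unfold Bd.G
  rw [coeff_equiv]
  have h1 : (b.P t).coeff (b.P t).natDegree = 1 := b.P_monic hA hB hy hz t
  simp [h1]

include hA hB hy hz in
lemma Bd.G_deg (t : k) (ht : (RatFunc k)⟮b.w t⟯ = ⊤) :
    (b.G t).totalDegree = (b.P t).natDegree := by
  apply le_antisymm
  · unfold MvPolynomial.totalDegree
    refine Finset.sup_le fun m hm => ?_
    rw [MvPolynomial.mem_support_iff] at hm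
    unfold Bd.G at hm
    rw [coeff_equiv] at hm
    have h1 : (b.P t).coeff (m 1) ≠ 0 := by
      intro h
      rw [h, coeff_zero] at hm
      exact hm rfl
    have h2 := b.P_coeff hA hB hy hz t ht (m 1) h1
    have h3 : m 0 ≤ ((b.P t).coeff (m 1)).natDegree := le_natDegree_of_ne_zero hm
    rw [Finsupp.sum_fintype _ _ (fun _ => rfl), Fin.sum_univ_two]
    omega
  · have h1 := deg_le (A := b.G t) (m := Finsupp.single 1 (b.P t).natDegree) (by
      rw [MvPolynomial.mem_support_iff, b.G_coeff_top hA hB hy hz]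
      exact one_ne_zero)
    simpa using h1

include hA hB hy hz in
lemma Bd.G_monicY (t : k) (ht : (RatFunc k)⟮b.w t⟯ = ⊤) : MonicY (b.G t) := by
  unfold MonicY
  rw [b.G_deg hA hB hy hz t ht, b.G_coeff_top hA hB hy hz]
  exact one_ne_zero

include hA hB hy hz in
lemma Bd.G_irr (t : k) : Irreducible (b.G t) := by
  unfold Bd.G
  rw [MulEquiv.irreducible_iff (Bivariate.equivMvPolynomial k)]
  exact minpoly.irreducible (b.w_int hA hB hy hz t)

lemma Bd.G_aeval (t : k) : MvPolynomial.aeval ![b.x, b.w t] (b.G t) = 0 := by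
  unfold Bd.G
  rw [mv_aeval]
  have e1 : ((aeval b.x : k[X] →ₐ[k] b.E) : k[X] →+* b.E) = algebraMap k[X] b.E :=
    RingHom.ext fun P => b.aeval_x P
  rw [e1]
  exact minpoly.aeval k[X] (b.w t)

lemma Bd.G_eval (t c s : k) :
    MvPolynomial.eval ![c, s] (b.G t) = ((b.P t).map (evalRingHom c)).eval s := by
  have h := mv_aeval (E := k) (b.P t) c s
  have e1 : ((aeval c : k[X] →ₐ[k] k) : k[X] →+* k) = evalRingHom c := by
    ext <;> simp
  rw [e1, ← eval_map] at h
  exact h

end

section

/-- all but finitely many projections separate finite sets of points -/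
lemma bad_finite {k K : Type*} [Field k] [Field K] [Algebra k K] {S T : Set (K × K)}
    (hS : S.Finite) (hT : T.Finite) :
    {t : k | ∃ π ∈ S, ∃ π' ∈ T, π ≠ π' ∧
      π.1 + algebraMap k K t * π.2 = π'.1 + algebraMap k K t * π'.2}.Finite := by
  have h1 : {t : k | ∃ π ∈ S, ∃ π' ∈ T, π ≠ π' ∧
      π.1 + algebraMap k K t * π.2 = π'.1 + algebraMap k K t * π'.2} =
      ⋃ π ∈ S, ⋃ π' ∈ T, {t : k | π ≠ π' ∧
        π.1 + algebraMap k K t * π.2 = π'.1 + algebraMap k K t * π'.2} := by
    ext t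
    simp only [Set.mem_ofPred_eq, Set.mem_iUnion, exists_prop]
  rw [h1]
  refine hS.biUnion fun π _ => hT.biUnion fun π' _ => Set.Subsingleton.finite ?_
  rintro t ⟨hne, ht⟩ t' ⟨_, ht'⟩
  have h2 : (algebraMap k K t - algebraMap k K t') * (π.2 - π'.2) = 0 := by
    linear_combination ht - ht'
  rcases mul_eq_zero.1 h2 with h3 | h3
  · exact (algebraMap k K).injective (sub_eq_zero.1 h3)
  · exfalso
    apply hne
    have h4 : π.2 = π'.2 := sub_eq_zero.1 h3
    rw [h4] at ht
    exact Prod.ext (add_right_cancel ht) h4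

variable {k : Type} [Field k]

/-- the roots -/
def rts (A : MvPolynomial (Fin 2) k) : Set (LL k) := {α | aeval α (eqn A) = 0}

lemma rts_finite {A : MvPolynomial (Fin 2) k} (hA : MonicY A) : (rts A).Finite := by
  have h1 : (eqn A).map (algebraMap (RatFunc k) (LL k)) ≠ 0 := ((eqn_monic hA).map _).ne_zero
  refine (Set.finite_coe_iff.1 ?_ : Set.Finite {x | IsRoot ((eqn A).map (algebraMap (RatFunc k) (LL k))) x}).subset ?_
  · exact Set.finite_coe_iff.2 (finite_setOfPred_isRoot h1)
  · intro α hα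
    rw [Set.mem_ofPred_eq, IsRoot, eval_map_algebraMap]
    exact hα

/-- the roots over a point -/
def rtc (A : MvPolynomial (Fin 2) k) (c : k) : Set k := {s | MvPolynomial.eval ![c, s] A = 0}

lemma rtc_finite {A : MvPolynomial (Fin 2) k} (hA : MonicY A) (c : k) : (rtc A c).Finite := by
  have h1 : (mpol A).map (evalRingHom c) ≠ 0 := ((mpol_monic hA).map _).ne_zero
  refine (finite_setOfPred_isRoot h1).subset ?_
  intro s hs
  exact (mpol_eval A hA c s).2 hs

end

section

variable {k : Type} [Field k]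

/-- the integral closure -/
noncomputable abbrev RR (k : Type) [Field k] : Subalgebra k[X] (LL k) := integralClosure k[X] (LL k)

lemma RR_int (α : LL k) (h : IsIntegral (RR k) α) : ∃ β : RR k, algebraMap (RR k) (LL k) β = α :=
  ⟨⟨α, isIntegral_trans α h⟩, rfl⟩

lemma RR_inj : Function.Injective (algebraMap (RR k) (LL k)) := Subtype.val_injective

/-- lifting of roots over a point of the line -/
lemma lift_pol (ρ : RR k →+* k) (c : k) (hρ : ∀ P : k[X], ρ (algebraMap k[X] _ P) = P.eval c)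
    (P : k[X][X]) (hP : P.Monic) (s : k) (hs : (P.map (evalRingHom c)).eval s = 0) :
    ∃ α : RR k, aeval (α : LL k) P = 0 ∧ ρ α = s := by
  have h1 : ρ.comp (algebraMap k[X] (RR k)) = evalRingHom c := RingHom.ext fun P => hρ P
  have h2 : ((P.map (algebraMap k[X] (RR k))).map ρ).eval s = 0 := by
    rw [Polynomial.map_map, h1]
    exact hs
  obtain ⟨α, h3, h4⟩ := lift_root RR_int RR_inj ρ _ _ (hP.map _) rfl s h2
  refine ⟨α, ?_, h4⟩
  rw [eval_map_algebraMap] at h3
  have h5 := congrArg (algebraMap (RR k) (LL k)) h3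
  rw [← aeval_algebraMap_apply, map_zero] at h5
  exact h5

/-- reduction of roots -/
lemma red_pol (ρ : RR k →+* k) (c : k) (hρ : ∀ P : k[X], ρ (algebraMap k[X] _ P) = P.eval c)
    (P : k[X][X]) (α : RR k) (hα : aeval (α : LL k) P = 0) :
    (P.map (evalRingHom c)).eval (ρ α) = 0 := by
  have h1 : ρ.comp (algebraMap k[X] (RR k)) = evalRingHom c := RingHom.ext fun P => hρ P
  have h2 : aeval α P = 0 := by
    apply RR_inj
    rw [← aeval_algebraMap_apply, map_zero]
    exact hα
  rw [← h1, ← Polynomial.map_map, eval_map, eval₂_at_apply, eval_map_algebraMap, h2, map_zero]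

lemma rho_const (ρ : RR k →+* k) (c : k) (hρ : ∀ P : k[X], ρ (algebraMap k[X] _ P) = P.eval c)
    (t : k) : ρ (algebraMap k (RR k) t) = t := by
  rw [IsScalarTower.algebraMap_apply k k[X] (RR k), hρ, algebraMap_eq, eval_C]

/-- the place of a homomorphism and the coordinates -/
lemma exists_at [CharZero k] (b : Bd k) (σ : b.E →ₐ[RatFunc k] LL k) (ρ : RR k →+* k) (c : k)
    (hρ : ∀ P : k[X], ρ (algebraMap k[X] _ P) = P.eval c) (hy : IsIntegral k[X] b.y)
    (hz : IsIntegral k[X] b.z) (α β : RR k) (hα : (α : LL k) = σ b.y) (hβ : (β : LL k) = σ b.z)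
    (p : Fin 4 → k) (p0 : p 0 = 1) (p1 : p 1 = c) (p2 : p 2 = ρ α) (p3 : p 3 = ρ β) :
    ∃ v : Place k b.E, At v b.XX p := by
  obtain ⟨v, hv⟩ := exists_place b σ ρ c hρ
  refine ⟨v, fun i => ?_⟩
  fin_cases i
  · change Ge v 1 (1 - algebraMap k b.E (p 0))
    rw [p0, map_one, sub_self]
    exact Ge.zero
  · change Ge v 1 (b.x - algebraMap k b.E (p 1))
    have h1 := hv b.x (by rw [← b.x_eq]; exact isIntegral_algebraMap) (algebraMap k[X] _ X) (by
      rw [Bd.x, σ.commutes]
      change algebraMap k[X] (LL k) X = _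
      rw [IsScalarTower.algebraMap_apply k[X] (RatFunc k) (LL k), RatFunc.algebraMap_X])
    rw [hρ, eval_X, ← p1] at h1
    exact h1
  · change Ge v 1 (b.y - algebraMap k b.E (p 2))
    rw [p2]
    exact hv b.y hy α hα
  · change Ge v 1 (b.z - algebraMap k b.E (p 3))
    rw [p3]
    exact hv b.z hz β hβ

lemma eqn_root_iff (A : MvPolynomial (Fin 2) k) (α : LL k) :
    aeval α (eqn A) = 0 ↔ aeval α (mpol A) = 0 := by
  unfold eqn
  rw [aeval_map_algebraMap]

/-- the image of an integral element -/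
lemma exists_img (b : Bd k) (σ : b.E →ₐ[RatFunc k] LL k) {u : b.E} (hu : IsIntegral k[X] u) :
    ∃ α : RR k, (α : LL k) = σ u :=
  ⟨⟨σ u, hu.map (σ.restrictScalars k[X])⟩, rfl⟩

end

section

variable {k : Type} [Field k] [IsAlgClosed k] [CharZero k]

lemma exists_hom_root (b : Bd k) (u : b.E) (α : LL k)
    (h : aeval α (minpoly (RatFunc k) u) = 0) : ∃ σ : b.E →ₐ[RatFunc k] LL k, σ u = α := by
  have h1 := Algebra.IsAlgebraic.range_eval_eq_rootSet_minpoly (F := RatFunc k) (A := LL k) u
  have h2 : α ∈ (minpoly (RatFunc k) u).rootSet (LL k) := by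
    rw [mem_rootSet]
    exact ⟨minpoly.ne_zero (IsIntegral.of_finite _ _), h⟩
  rw [← h1] at h2
  exact h2

end

/-- **CV/CUR** -/
theorem cur_ : StCUR := by
  intro k _ _ _ A B hA hB hA1 hB1
  obtain ⟨r, b, hroot, hgen, hrank, hcov, hsep⟩ := decomp hA hB
  have hyi : ∀ i, IsIntegral k[X] (b i).y := fun i => integral_of hA (hroot i).1
  have hzi : ∀ i, IsIntegral k[X] (b i).z := fun i => integral_of hB (hroot i).2
  refine ⟨r, fun i => (b i).E, fun i => inferInstance, fun i => inferInstance,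
    fun i => (b i).isFF, fun i => (b i).XX, fun i => (b i).good hA hB (hroot i).1 (hroot i).2 (hgen i),
    fun i => ⟨(b i).aeval_A (hroot i).1 hA, (b i).aeval_A (hroot i).2 hB⟩, ?_, ?_, ?_⟩
  · intro p p0 pA pB
    obtain ⟨ρ, hρ⟩ := exists_rho (p 1)
    obtain ⟨α, hα, hα'⟩ := lift_pol ρ (p 1) hρ (mpol A) (mpol_monic hA) (p 2)
      ((mpol_eval A hA _ _).2 pA)
    obtain ⟨β, hβ, hβ'⟩ := lift_pol ρ (p 1) hρ (mpol B) (mpol_monic hB) (p 3)
      ((mpol_eval B hB _ _).2 pB)
    obtain ⟨i, σ, hσy, hσz⟩ := hcov α β ((eqn_root_iff A _).2 hα) ((eqn_root_iff B _).2 hβ)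
    exact ⟨i, exists_at (b i) σ ρ (p 1) hρ (hyi i) (hzi i) α β hσy.symm hσz.symm p p0 rfl hα'.symm
      hβ'.symm⟩
  · refine le_trans (le_of_eq ?_) hrank
    exact Finset.sum_congr rfl fun i _ => (b i).finrank_x
  · intro Γ hΓ
    have hb1 := bad_finite (k := k) (K := LL k) ((rts_finite hA).prod (rts_finite hB))
      ((rts_finite hA).prod (rts_finite hB))
    have hb2 : (⋃ p ∈ Γ, {t : k | ∃ π ∈ rtc A (p 1) ×ˢ rtc B (p 1), ∃ π' ∈ ({(p 2, p 3)} : Set (k × k)),
        π ≠ π' ∧ π.1 + algebraMap k k t * π.2 = π'.1 + algebraMap k k t * π'.2}).Finite :=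
      Γ.finite_toSet.biUnion fun p _ => bad_finite ((rtc_finite hA _).prod (rtc_finite hB _))
        (Set.finite_singleton _)
    refine ⟨(hb1.union hb2).toFinset, fun t ht => ?_⟩
    rw [Set.Finite.mem_toFinset, Set.mem_union, not_or] at ht
    obtain ⟨ht1, ht2⟩ := ht
    have hσw : ∀ i (σ : (b i).E →ₐ[RatFunc k] LL k),
        σ ((b i).w t) = σ (b i).y + algebraMap k (LL k) t * σ (b i).z := by
      intro i σ
      unfold Bd.w
      rw [map_add, map_mul, IsScalarTower.algebraMap_apply k (RatFunc k) (b i).E, σ.commutes,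
        ← IsScalarTower.algebraMap_apply]
    have hσr : ∀ i (σ : (b i).E →ₐ[RatFunc k] LL k),
        (σ (b i).y, σ (b i).z) ∈ rts A ×ˢ rts B := by
      intro i σ
      refine ⟨?_, ?_⟩
      · change aeval (σ (b i).y) (eqn A) = 0
        rw [aeval_algHom_apply, (hroot i).1, map_zero]
      · change aeval (σ (b i).z) (eqn B) = 0
        rw [aeval_algHom_apply, (hroot i).2, map_zero]
    have hkey : ∀ i j (σ : (b i).E →ₐ[RatFunc k] LL k) (τ : (b j).E →ₐ[RatFunc k] LL k),
        σ ((b i).w t) = τ ((b j).w t) → σ (b i).y = τ (b j).y ∧ σ (b i).z = τ (b j).z := by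
      intro i j σ τ h
      by_contra hne
      apply ht1
      refine ⟨(σ (b i).y, σ (b i).z), hσr i σ, (τ (b j).y, τ (b j).z), hσr j τ, ?_, ?_⟩
      · intro h2
        exact hne ⟨congrArg Prod.fst h2, congrArg Prod.snd h2⟩
      · rw [← hσw, ← hσw]
        exact h
    have hprim : ∀ i, (RatFunc k)⟮(b i).w t⟯ = ⊤ := by
      intro i
      have : CharZero (RatFunc k) :=
        charZero_of_injective_algebraMap (algebraMap k (RatFunc k)).injective
      rw [Field.primitive_element_iff_algHom_eq_of_eval' (RatFunc k) (LL k)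
        (fun x => IsAlgClosed.splits _)]
      intro φ ψ h
      obtain ⟨h1, h2⟩ := hkey i i φ ψ h
      refine AlgHom.ext_of_adjoin_eq_top (hgen i) ?_
      intro u hu
      rcases hu with rfl | hu
      · exact h1
      · rw [Set.mem_singleton_iff] at hu
        rw [hu]
        exact h2
    refine ⟨fun i => (b i).G t, fun i => ⟨(b i).G_irr hA hB (hroot i).1 (hroot i).2 t,
      (b i).G_monicY hA hB (hroot i).1 (hroot i).2 t (hprim i), ?_, (b i).G_aeval t⟩, ?_, ?_⟩
    · rw [(b i).G_deg hA hB (hroot i).1 (hroot i).2 t (hprim i),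
        (b i).P_natDegree hA hB (hroot i).1 (hroot i).2 t (hprim i)]
      exact ((b i).finrank_x).symm
    · intro i j hij hass
      apply hij
      have h1 : Associated ((b i).P t) ((b j).P t) := by
        have h2 := hass.map (Bivariate.equivMvPolynomial k).symm
        unfold Bd.G at h2
        rwa [AlgEquiv.symm_apply_apply, AlgEquiv.symm_apply_apply] at h2
      have h3 := eq_of_monic_of_associated ((b i).P_monic hA hB (hroot i).1 (hroot i).2 t)
        ((b j).P_monic hA hB (hroot j).1 (hroot j).2 t) h1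
      have h4 : minpoly (RatFunc k) ((b i).w t) = minpoly (RatFunc k) ((b j).w t) := by
        rw [(b i).P_map hA hB (hroot i).1 (hroot i).2, (b j).P_map hA hB (hroot j).1 (hroot j).2, h3]
      let σ : (b i).E →ₐ[RatFunc k] LL k := IsAlgClosed.lift
      obtain ⟨τ, hτ⟩ := exists_hom_root (b j) ((b j).w t) (σ ((b i).w t)) (by
        rw [← h4, aeval_algHom_apply, minpoly.aeval, map_zero])
      obtain ⟨h5, h6⟩ := hkey i j σ τ hτ.symm
      exact hsep i j σ τ h5 h6
    · intro i p hp hG
      rw [(b i).G_eval] at hG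
      obtain ⟨ρ, hρ⟩ := exists_rho (p 1)
      obtain ⟨α, hα, hα'⟩ := lift_pol ρ (p 1) hρ ((b i).P t)
        ((b i).P_monic hA hB (hroot i).1 (hroot i).2 t) _ hG
      obtain ⟨σ, hσ⟩ := exists_hom_root (b i) ((b i).w t) (α : LL k) (by
        rw [(b i).P_map hA hB (hroot i).1 (hroot i).2, aeval_map_algebraMap]
        exact hα)
      obtain ⟨gy, hgy⟩ := exists_img (b i) σ (hyi i)
      obtain ⟨gz, hgz⟩ := exists_img (b i) σ (hzi i)
      have e1 : ρ gy ∈ rtc A (p 1) := by
        refine (mpol_eval A hA _ _).1 (red_pol ρ (p 1) hρ (mpol A) gy ?_)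
        rw [hgy, ← eqn_root_iff]
        exact (hσr i σ).1
      have e2 : ρ gz ∈ rtc B (p 1) := by
        refine (mpol_eval B hB _ _).1 (red_pol ρ (p 1) hρ (mpol B) gz ?_)
        rw [hgz, ← eqn_root_iff]
        exact (hσr i σ).2
      have e3 : ρ gy + t * ρ gz = p 2 + t * p 3 := by
        have h1 : gy + algebraMap k (RR k) t * gz = α := by
          apply RR_inj
          rw [map_add, map_mul, ← IsScalarTower.algebraMap_apply k (RR k) (LL k)]
          change (gy : LL k) + algebraMap k (LL k) t * (gz : LL k) = (α : LL k)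
          rw [hgy, hgz, ← hσ, hσw]
        rw [← hα', ← h1, map_add, map_mul, rho_const ρ (p 1) hρ]
      have e4 : ρ gy = p 2 ∧ ρ gz = p 3 := by
        by_contra hne
        apply ht2
        rw [Set.mem_iUnion₂]
        refine ⟨p, hp, (ρ gy, ρ gz), ⟨e1, e2⟩, (p 2, p 3), rfl, ?_, e3⟩
        intro h2
        exact hne ⟨congrArg Prod.fst h2, congrArg Prod.snd h2⟩
      exact exists_at (b i) σ ρ (p 1) hρ (hyi i) (hzi i) gy gz hgy hgz p (hΓ p hp) rfl e4.1.symm
        e4.2.symm

end Pool.Agent.N558.CV
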