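import Pool.Agent.N558.CV.Itg

/-!
# CV/CUR: polynomials in two variables (helper558)
-/

set_option autoImplicit false

open Polynomial

namespace Pool.Agent.N558.CV

open Pool.Agent.N162.CV

section

variable {k : Type} [Field k]

lemma coeff_equiv (P : k[X][X]) (m : Fin 2 →₀ ℕ) :
    (Bivariate.equivMvPolynomial k P).coeff m = (P.coeff (m 1)).coeff (m 0) := by
  induction P using Polynomial.induction_on' with
  | add p q hp hq => rw [map_add, MvPolynomial.coeff_add, hp, hq, coeff_add, coeff_add]
  | monomial n Q =>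
    induction Q using Polynomial.induction_on' with
    | add p q hp hq =>
      rw [map_add (monomial n), map_add, MvPolynomial.coeff_add, hp, hq, coeff_add, coeff_add]
    | monomial i a =>
      have h1 : Bivariate.equivMvPolynomial k (monomial n (monomial i a)) =
          MvPolynomial.monomial (Finsupp.single 0 i + Finsupp.single 1 n) a := by
        rw [← C_mul_X_pow_eq_monomial, ← C_mul_X_pow_eq_monomial, map_mul, map_mul, map_mul,
          map_pow, map_pow, map_pow, Bivariate.equivMvPolynomial_C_C, Bivariate.equivMvPolynomial_C_X,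
          Bivariate.equivMvPolynomial_X, MvPolynomial.monomial_eq,
          Finsupp.prod_add_index' (by simp) (by intros; rw [pow_add])]
        simp [mul_assoc]
      rw [h1, MvPolynomial.coeff_monomial, coeff_monomial]
      by_cases h2 : Finsupp.single 0 i + Finsupp.single 1 n = m
      · rw [if_pos h2, if_pos (by rw [← h2]; simp), coeff_monomial, if_pos (by rw [← h2]; simp)]
      · rw [if_neg h2]
        by_cases h3 : n = m 1
        · rw [if_pos h3, coeff_monomial, if_neg]
          rintro h4
          apply h2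
          ext j
          fin_cases j
          · simp [h4]
          · simp [h3]
        · rw [if_neg h3, coeff_zero]

lemma mv_aeval {E : Type*} [CommRing E] [Algebra k E] (P : k[X][X]) (x y : E) :
    MvPolynomial.aeval ![x, y] (Bivariate.equivMvPolynomial k P) =
      P.eval₂ ((aeval x : k[X] →ₐ[k] E) : k[X] →+* E) y := by
  have h : ((MvPolynomial.aeval ![x, y] : MvPolynomial (Fin 2) k →ₐ[k] E) :
      MvPolynomial (Fin 2) k →+* E).comp
      ((Bivariate.equivMvPolynomial k : k[X][X] →ₐ[k] MvPolynomial (Fin 2) k) :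
        k[X][X] →+* MvPolynomial (Fin 2) k) =
      eval₂RingHom ((aeval x : k[X] →ₐ[k] E) : k[X] →+* E) y := by
    refine Polynomial.ringHom_ext' (Polynomial.ringHom_ext' ?_ ?_) ?_
    · ext a
      simp
    · simp
    · simp
  exact congrArg (fun f : k[X][X] →+* E => f P) h

/-- as a polynomial in `y` -/
noncomputable def pol (A : MvPolynomial (Fin 2) k) : k[X][X] :=
  (Bivariate.equivMvPolynomial k).symm A

lemma equiv_pol (A : MvPolynomial (Fin 2) k) : Bivariate.equivMvPolynomial k (pol A) = A :=
  AlgEquiv.apply_symm_apply _ _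

lemma pol_coeff (A : MvPolynomial (Fin 2) k) (i j : ℕ) :
    ((pol A).coeff j).coeff i = A.coeff (Finsupp.single 0 i + Finsupp.single 1 j) := by
  conv_rhs => rw [← equiv_pol A]
  rw [coeff_equiv]
  simp

lemma pol_coeff_zero (A : MvPolynomial (Fin 2) k) {i j : ℕ} (h : A.totalDegree < i + j) :
    ((pol A).coeff j).coeff i = 0 := by
  rw [pol_coeff]
  by_contra hne
  have h1 := deg_le (MvPolynomial.mem_support_iff.2 hne)
  simp at h1
  omega

lemma pol_top (A : MvPolynomial (Fin 2) k) :
    (pol A).coeff A.totalDegree = C (A.coeff (Finsupp.single 1 A.totalDegree)) := by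
  ext i
  rw [coeff_C]
  split_ifs with h
  · subst h
    rw [pol_coeff]
    simp
  · exact pol_coeff_zero A (by omega)

lemma pol_natDegree {A : MvPolynomial (Fin 2) k} (hA : MonicY A) :
    (pol A).natDegree = A.totalDegree := by
  apply natDegree_eq_of_le_of_coeff_ne_zero
  · rw [natDegree_le_iff_coeff_eq_zero]
    intro n hn
    ext i
    rw [coeff_zero]
    exact pol_coeff_zero A (by omega)
  · rw [pol_top, Ne, C_eq_zero]
    exact hA

/-- the monic polynomial -/
noncomputable def mpol (A : MvPolynomial (Fin 2) k) : k[X][X] :=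
  C (C (A.coeff (Finsupp.single 1 A.totalDegree))⁻¹) * pol A

lemma mpol_monic {A : MvPolynomial (Fin 2) k} (hA : MonicY A) : (mpol A).Monic := by
  unfold mpol
  apply monic_C_mul_of_mul_leadingCoeff_eq_one
  rw [leadingCoeff, pol_natDegree hA, pol_top, ← C_mul, inv_mul_cancel₀ hA, C_1]

lemma mpol_natDegree {A : MvPolynomial (Fin 2) k} (hA : MonicY A) :
    (mpol A).natDegree = A.totalDegree := by
  unfold mpol
  rw [natDegree_C_mul, pol_natDegree hA]
  rw [Ne, C_eq_zero]
  exact inv_ne_zero hA

lemma mpol_eval₂ {E : Type*} [CommRing E] [Algebra k E] (A : MvPolynomial (Fin 2) k) (hA : MonicY A)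
    (x y : E) : (mpol A).eval₂ ((aeval x : k[X] →ₐ[k] E) : k[X] →+* E) y = 0 ↔
      MvPolynomial.aeval ![x, y] A = 0 := by
  conv_rhs => rw [← equiv_pol A]
  rw [mv_aeval, mpol, eval₂_mul, eval₂_C]
  have h : ((aeval x : k[X] →ₐ[k] E) : k[X] →+* E)
      (C (A.coeff (Finsupp.single 1 A.totalDegree))⁻¹) =
      algebraMap k E (A.coeff (Finsupp.single 1 A.totalDegree))⁻¹ := by
    simp
  rw [h]
  constructor
  · intro h1
    have h2 := congrArg (fun u => algebraMap k E (A.coeff (Finsupp.single 1 A.totalDegree)) * u) h1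
    rw [← mul_assoc, ← map_mul, mul_inv_cancel₀ hA, map_one, one_mul, mul_zero] at h2
    exact h2
  · intro h1
    rw [h1, mul_zero]

lemma mpol_eval (A : MvPolynomial (Fin 2) k) (hA : MonicY A) (c s : k) :
    ((mpol A).map (evalRingHom c)).eval s = 0 ↔ MvPolynomial.eval ![c, s] A = 0 := by
  have h := mpol_eval₂ (E := k) A hA c s
  rw [eval_map]
  have e1 : ((aeval c : k[X] →ₐ[k] k) : k[X] →+* k) = evalRingHom c := by
    ext <;> simp
  rw [e1] at h
  rw [h]
  exact Iff.rfl

lemma mpol_aeval {E : Type*} [CommRing E] [Algebra k E] [Algebra k[X] E] [IsScalarTower k k[X] E]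
    (A : MvPolynomial (Fin 2) k) (hA : MonicY A) (y : E) :
    aeval y (mpol A) = 0 ↔ MvPolynomial.aeval ![algebraMap k[X] E X, y] A = 0 := by
  rw [← mpol_eval₂ A hA, aeval_def]
  have e1 : ((aeval (algebraMap k[X] E X) : k[X] →ₐ[k] E) : k[X] →+* E) = algebraMap k[X] E := by
    refine Polynomial.ringHom_ext' ?_ ?_
    · ext a
      simp only [RingHom.comp_apply, RingHom.coe_coe, aeval_C]
      rw [IsScalarTower.algebraMap_apply k k[X] E]
      rfl
    · simp
  rw [e1]

end

end Pool.Agent.N558.CV
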