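import Pool.Agent.N558.CV.Biv

/-!
# CV/CUR, part 2: the decomposition (helper558)
-/

set_option autoImplicit false

open Polynomial FF Pool.Agent.W603.LV IntermediateField IsDedekindDomain TensorProduct

namespace Pool.Agent.N558.CV

open Pool.Agent.N162.CV

section

/-- roots of the reduction come from roots -/
theorem lift_root {R L K : Type*} [CommRing R] [Field L] [IsAlgClosed L] [Algebra R L] [Field K]
    (hint : ∀ α : L, IsIntegral R α → ∃ β : R, algebraMap R L β = α)
    (hinj : Function.Injective (algebraMap R L)) (ρ : R →+* K) :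
    ∀ (n : ℕ) (P : R[X]), P.Monic → P.natDegree = n → ∀ s : K, (P.map ρ).eval s = 0 →
      ∃ α : R, P.eval α = 0 ∧ ρ α = s := by
  intro n
  induction n with
  | zero =>
    intro P hP hn s hs
    rw [hP.natDegree_eq_zero.1 hn, Polynomial.map_one, eval_one] at hs
    exact absurd hs one_ne_zero
  | succ n ih =>
    intro P hP hn s hs
    have : Nontrivial R := ρ.domain_nontrivial
    have hdeg : (P.map (algebraMap R L)).degree ≠ 0 := by
      rw [hP.degree_map, degree_eq_natDegree hP.ne_zero, hn]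
      exact_mod_cast Nat.succ_ne_zero n
    obtain ⟨α, hα⟩ := IsAlgClosed.exists_root _ hdeg
    have hαi : IsIntegral R α := ⟨P, hP, by rwa [IsRoot, eval_map] at hα⟩
    obtain ⟨β, hβ⟩ := hint α hαi
    have hβr : P.eval β = 0 := by
      apply hinj
      rw [map_zero]
      rw [IsRoot, ← hβ, eval_map_algebraMap, aeval_algebraMap_apply] at hα
      exact hα
    set Q := P /ₘ (X - C β) with hQ
    have hPQ : (X - C β) * Q = P := mul_divByMonic_eq_iff_isRoot.2 hβr
    have hQm : Q.Monic := (monic_X_sub_C β).of_mul_monic_left (by rw [hPQ]; exact hP)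
    have hQn : Q.natDegree = n := by
      have h1 := congrArg natDegree hPQ
      rw [(monic_X_sub_C β).natDegree_mul hQm, natDegree_X_sub_C, hn] at h1
      omega
    rw [← hPQ, Polynomial.map_mul, eval_mul, Polynomial.map_sub, map_X, map_C, eval_sub, eval_X,
      eval_C] at hs
    rcases mul_eq_zero.1 hs with h | h
    · exact ⟨β, hβr, (sub_eq_zero.1 h).symm⟩
    · obtain ⟨γ, h1, h2⟩ := ih Q hQm hQn s h
      refine ⟨γ, ?_, h2⟩
      rw [← hPQ, eval_mul, h1, mul_zero]

end

section

variable {k : Type} [Field k]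

/-- homomorphisms over a point of the line -/
theorem exists_rho [IsAlgClosed k] (c : k) : ∃ ρ : integralClosure k[X] (LL k) →+* k,
    ∀ P : k[X], ρ (algebraMap k[X] _ P) = P.eval c := by
  set R := integralClosure k[X] (LL k) with hR
  have hinj : Function.Injective (algebraMap k[X] R) := by
    have h1 : Function.Injective (algebraMap k[X] (LL k)) := by
      rw [IsScalarTower.algebraMap_eq k[X] (RatFunc k) (LL k)]
      exact (algebraMap (RatFunc k) (LL k)).injective.comp (RatFunc.algebraMap_injective k)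
    intro a b h
    apply h1
    rw [IsScalarTower.algebraMap_apply k[X] R (LL k), h, ← IsScalarTower.algebraMap_apply]
  have hmax : (RingHom.ker (evalRingHom c)).IsMaximal :=
    RingHom.ker_isMaximal_of_surjective _ (fun a => ⟨C a, by simp⟩)
  obtain ⟨Q, hQ, hQc⟩ := Ideal.exists_ideal_over_maximal_of_isIntegral (R := k[X]) (S := R)
    (RingHom.ker (evalRingHom c)) (by
      rw [(RingHom.injective_iff_ker_eq_bot _).1 hinj]
      exact bot_le)
  let _ : Field (R ⧸ Q) := Ideal.Quotient.field Q
  -- reduction of polynomials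
  have hred : ∀ P : k[X], Ideal.Quotient.mk Q (algebraMap k[X] R P) =
      algebraMap k (R ⧸ Q) (P.eval c) := by
    intro P
    have h1 : P - C (P.eval c) ∈ Q.comap (algebraMap k[X] R) := by
      rw [hQc, RingHom.mem_ker]
      simp
    rw [Ideal.mem_comap, map_sub, ← Ideal.Quotient.eq_zero_iff_mem, map_sub, sub_eq_zero] at h1
    rw [h1]
    rfl
  have hint : Algebra.IsIntegral k (R ⧸ Q) := by
    constructor
    intro f
    obtain ⟨r, rfl⟩ := Ideal.Quotient.mk_surjective f
    obtain ⟨P, hP, hPr⟩ := (Algebra.IsIntegral.isIntegral (R := k[X]) r)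
    refine ⟨P.map (evalRingHom c), hP.map _, ?_⟩
    rw [eval₂_map]
    have h1 : (algebraMap k (R ⧸ Q)).comp (evalRingHom c) =
        (Ideal.Quotient.mk Q).comp (algebraMap k[X] R) :=
      RingHom.ext fun P => (hred P).symm
    rw [h1, ← hom_eval₂, hPr, map_zero]
  have hsurj : Function.Surjective (algebraMap k (R ⧸ Q)) :=
    (IsAlgClosed.algebraMap_bijective_of_isIntegral (k := k) (K := R ⧸ Q)).2
  have hinj2 : Function.Injective (algebraMap k (R ⧸ Q)) := (algebraMap k (R ⧸ Q)).injective
  let e : k ≃+* (R ⧸ Q) := RingEquiv.ofBijective _ ⟨hinj2, hsurj⟩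
  refine ⟨e.symm.toRingHom.comp (Ideal.Quotient.mk Q), fun P => ?_⟩
  change e.symm (Ideal.Quotient.mk Q (algebraMap k[X] R P)) = _
  rw [hred, RingEquiv.symm_apply_eq]
  rfl

/-! ### the algebra of the curve over `k(x)` -/

/-- the equation over `k(x)` -/
noncomputable def eqn (A : MvPolynomial (Fin 2) k) : (RatFunc k)[X] :=
  (mpol A).map (algebraMap k[X] (RatFunc k))

lemma eqn_monic {A : MvPolynomial (Fin 2) k} (hA : MonicY A) : (eqn A).Monic :=
  (mpol_monic hA).map _

lemma eqn_natDegree {A : MvPolynomial (Fin 2) k} (hA : MonicY A) :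
    (eqn A).natDegree = A.totalDegree := by
  unfold eqn
  rw [(mpol_monic hA).natDegree_map, mpol_natDegree hA]

lemma eqn_aeval {E : Type*} [CommRing E] [Algebra k E] [Algebra k[X] E] [IsScalarTower k k[X] E]
    [Algebra (RatFunc k) E] [IsScalarTower k[X] (RatFunc k) E]
    (A : MvPolynomial (Fin 2) k) (hA : MonicY A) (y : E) :
    aeval y (eqn A) = 0 ↔
      MvPolynomial.aeval ![algebraMap (RatFunc k) E RatFunc.X, y] A = 0 := by
  unfold eqn
  rw [aeval_map_algebraMap, mpol_aeval A hA, IsScalarTower.algebraMap_apply k[X] (RatFunc k) E,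
    RatFunc.algebraMap_X]

/-- the algebra -/
abbrev AA (A B : MvPolynomial (Fin 2) k) : Type :=
  AdjoinRoot (eqn A) ⊗[RatFunc k] AdjoinRoot (eqn B)

section

variable {A B : MvPolynomial (Fin 2) k} (hA : MonicY A) (hB : MonicY B)

/-- the coordinate `y` -/
noncomputable def yy (A B : MvPolynomial (Fin 2) k) : AA A B :=
  Algebra.TensorProduct.includeLeft (R := RatFunc k) (S := RatFunc k) (AdjoinRoot.root (eqn A))

/-- the coordinate `z` -/
noncomputable def zz (A B : MvPolynomial (Fin 2) k) : AA A B :=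
  Algebra.TensorProduct.includeRight (R := RatFunc k) (A := AdjoinRoot (eqn A))
    (AdjoinRoot.root (eqn B))

lemma fin_left (hA : MonicY A) : FiniteDimensional (RatFunc k) (AdjoinRoot (eqn A)) :=
  (AdjoinRoot.powerBasis (eqn_monic hA).ne_zero).finite

lemma finrank_left (hA : MonicY A) :
    Module.finrank (RatFunc k) (AdjoinRoot (eqn A)) = A.totalDegree := by
  rw [(AdjoinRoot.powerBasis (eqn_monic hA).ne_zero).finrank, AdjoinRoot.powerBasis_dim,
    eqn_natDegree hA]

include hA hB in
lemma fin_AA : FiniteDimensional (RatFunc k) (AA A B) := by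
  have := fin_left hA
  have := fin_left hB
  infer_instance

include hA hB in
lemma finrank_AA : Module.finrank (RatFunc k) (AA A B) = A.totalDegree * B.totalDegree := by
  have := fin_left hA
  have := fin_left hB
  rw [Module.finrank_tensorProduct, finrank_left hA, finrank_left hB]

lemma adjoin_AA : Algebra.adjoin (RatFunc k) {yy A B, zz A B} = ⊤ := by
  rw [eq_top_iff]
  have hl : ∀ a : AdjoinRoot (eqn A), Algebra.TensorProduct.includeLeft (R := RatFunc k)
      (S := RatFunc k) (B := AdjoinRoot (eqn B)) a ∈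
      Algebra.adjoin (RatFunc k) {yy A B, zz A B} := by
    intro a
    have h1 : a ∈ Algebra.adjoin (RatFunc k) {AdjoinRoot.root (eqn A)} := by
      rw [AdjoinRoot.adjoinRoot_eq_top]
      trivial
    have h2 : (Algebra.TensorProduct.includeLeft : AdjoinRoot (eqn A) →ₐ[RatFunc k] AA A B) a ∈
      (Algebra.adjoin (RatFunc k) {AdjoinRoot.root (eqn A)}).map
        (Algebra.TensorProduct.includeLeft : AdjoinRoot (eqn A) →ₐ[RatFunc k] AA A B) := ⟨a, h1, rfl⟩
    rw [AlgHom.map_adjoin, Set.image_singleton] at h2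
    refine Algebra.adjoin_mono ?_ h2
    intro u hu
    rw [Set.mem_singleton_iff] at hu
    left
    exact hu
  have hr : ∀ a : AdjoinRoot (eqn B), Algebra.TensorProduct.includeRight (R := RatFunc k)
      (A := AdjoinRoot (eqn A)) a ∈
      Algebra.adjoin (RatFunc k) {yy A B, zz A B} := by
    intro a
    have h1 : a ∈ Algebra.adjoin (RatFunc k) {AdjoinRoot.root (eqn B)} := by
      rw [AdjoinRoot.adjoinRoot_eq_top]
      trivial
    have h2 : (Algebra.TensorProduct.includeRight : AdjoinRoot (eqn B) →ₐ[RatFunc k] AA A B) a ∈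
      (Algebra.adjoin (RatFunc k) {AdjoinRoot.root (eqn B)}).map
        (Algebra.TensorProduct.includeRight : AdjoinRoot (eqn B) →ₐ[RatFunc k] AA A B) := ⟨a, h1, rfl⟩
    rw [AlgHom.map_adjoin, Set.image_singleton] at h2
    refine Algebra.adjoin_mono ?_ h2
    intro u hu
    rw [Set.mem_singleton_iff] at hu
    right
    exact hu
  intro f _
  induction f using TensorProduct.induction_on with
  | zero => exact Subalgebra.zero_mem _
  | add a b ha hb => exact Subalgebra.add_mem _ (ha trivial) (hb trivial)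
  | tmul a b =>
    have h1 : a ⊗ₜ[RatFunc k] b = Algebra.TensorProduct.includeLeft (R := RatFunc k)
      (S := RatFunc k) (B := AdjoinRoot (eqn B)) a * Algebra.TensorProduct.includeRight
        (R := RatFunc k) (A := AdjoinRoot (eqn A)) b := by
      simp
    rw [h1]
    exact Subalgebra.mul_mem _ (hl a) (hr b)

/-- the components -/
noncomputable def comp (hA : MonicY A) (hB : MonicY B) (I : MaximalSpectrum (AA A B)) : Bd k where
  E := AA A B ⧸ I.asIdeal
  fld := Ideal.Quotient.field I.asIdeal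
  alg := inferInstanceAs (Algebra (RatFunc k) (AA A B ⧸ I.asIdeal))
  fd := by
    have := fin_AA hA hB
    exact inferInstanceAs (FiniteDimensional (RatFunc k) (AA A B ⧸ I.asIdeal))
  y := Ideal.Quotient.mk I.asIdeal (yy A B)
  z := Ideal.Quotient.mk I.asIdeal (zz A B)

variable (I : MaximalSpectrum (AA A B))

/-- the projection -/
noncomputable def mkA : AA A B →ₐ[RatFunc k] (comp hA hB I).E :=
  Ideal.Quotient.mkₐ (RatFunc k) I.asIdeal

lemma mkA_surj : Function.Surjective (mkA hA hB I) := Ideal.Quotient.mk_surjective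

lemma mkA_eq_zero (a : AA A B) : mkA hA hB I a = 0 ↔ a ∈ I.asIdeal := Ideal.Quotient.eq_zero_iff_mem

lemma mkA_y : mkA hA hB I (yy A B) = (comp hA hB I).y := rfl

lemma mkA_z : mkA hA hB I (zz A B) = (comp hA hB I).z := rfl

lemma exists_lift (h : AA A B →ₐ[RatFunc k] LL k) (hI : ∀ a ∈ I.asIdeal, h a = 0) :
    ∃ σ : (comp hA hB I).E →ₐ[RatFunc k] LL k, ∀ a, σ (mkA hA hB I a) = h a :=
  ⟨Ideal.Quotient.liftₐ I.asIdeal h hI, fun a => rfl⟩

lemma eq_of_yz {E : Type*} [CommRing E] [Algebra (RatFunc k) E] (f g : AA A B →ₐ[RatFunc k] E)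
    (hy : f (yy A B) = g (yy A B)) (hz : f (zz A B) = g (zz A B)) : f = g := by
  refine AlgHom.ext_of_adjoin_eq_top adjoin_AA ?_
  intro u hu
  rcases hu with rfl | hu
  · exact hy
  · rw [Set.mem_singleton_iff] at hu
    rw [hu]
    exact hz

/-- homomorphisms to the algebraic closure -/
lemma exists_hom {α β : LL k} (hα : aeval α (eqn A) = 0) (hβ : aeval β (eqn B) = 0) :
    ∃ h : AA A B →ₐ[RatFunc k] LL k, h (yy A B) = α ∧ h (zz A B) = β := by
  let f : AdjoinRoot (eqn A) →ₐ[RatFunc k] LL k :=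
    AdjoinRoot.liftAlgHom (eqn A) (Algebra.ofId (RatFunc k) (LL k)) α hα
  let g : AdjoinRoot (eqn B) →ₐ[RatFunc k] LL k :=
    AdjoinRoot.liftAlgHom (eqn B) (Algebra.ofId (RatFunc k) (LL k)) β hβ
  refine ⟨Algebra.TensorProduct.productMap f g, ?_, ?_⟩
  · unfold yy
    rw [Algebra.TensorProduct.includeLeft_apply, Algebra.TensorProduct.productMap_left_apply]
    exact AdjoinRoot.liftAlgHom_root (eqn A) (Algebra.ofId (RatFunc k) (LL k)) α hα
  · unfold zz
    rw [Algebra.TensorProduct.includeRight_apply, Algebra.TensorProduct.productMap_right_apply]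
    exact AdjoinRoot.liftAlgHom_root (eqn B) (Algebra.ofId (RatFunc k) (LL k)) β hβ

lemma yy_root : aeval (yy A B) (eqn A) = 0 := by
  unfold yy
  rw [aeval_algHom_apply, AdjoinRoot.aeval_eq, AdjoinRoot.mk_self, map_zero]

lemma zz_root : aeval (zz A B) (eqn B) = 0 := by
  unfold zz
  rw [aeval_algHom_apply, AdjoinRoot.aeval_eq, AdjoinRoot.mk_self, map_zero]

include hA hB in
/-- **the decomposition** -/
theorem decomp : ∃ (r : ℕ) (b : Fin r → Bd k),
    (∀ i, aeval (b i).y (eqn A) = 0 ∧ aeval (b i).z (eqn B) = 0) ∧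
    (∀ i, Algebra.adjoin (RatFunc k) {(b i).y, (b i).z} = ⊤) ∧
    (∑ i, Module.finrank (RatFunc k) (b i).E ≤ A.totalDegree * B.totalDegree) ∧
    (∀ α β : LL k, aeval α (eqn A) = 0 → aeval β (eqn B) = 0 →
      ∃ i, ∃ σ : (b i).E →ₐ[RatFunc k] LL k, σ (b i).y = α ∧ σ (b i).z = β) ∧
    (∀ i j (σ : (b i).E →ₐ[RatFunc k] LL k) (τ : (b j).E →ₐ[RatFunc k] LL k),
      σ (b i).y = τ (b j).y → σ (b i).z = τ (b j).z → i = j) := by
  classical
  have hfin := fin_AA hA hB
  have hart : IsArtinianRing (AA A B) := IsArtinianRing.of_finite (RatFunc k) (AA A B)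
  have hms : Finite (MaximalSpectrum (AA A B)) := inferInstance
  let _ : Fintype (MaximalSpectrum (AA A B)) := Fintype.ofFinite _
  let e := Fintype.equivFin (MaximalSpectrum (AA A B))
  refine ⟨Fintype.card (MaximalSpectrum (AA A B)), fun i => comp hA hB (e.symm i), ?_, ?_, ?_, ?_,
    ?_⟩
  · intro i
    constructor
    · rw [← mkA_y, aeval_algHom_apply, yy_root, map_zero]
    · rw [← mkA_z, aeval_algHom_apply, zz_root, map_zero]
  · intro i
    rw [← mkA_y, ← mkA_z]
    have h1 := AlgHom.map_adjoin (mkA hA hB (e.symm i)) {yy A B, zz A B}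
    rw [adjoin_AA, Set.image_pair] at h1
    rw [← h1, Algebra.map_top, AlgHom.range_eq_top]
    exact mkA_surj hA hB _
  · rw [← finrank_AA hA hB, Equiv.sum_comp e.symm (fun I => Module.finrank (RatFunc k)
      (comp hA hB I).E), ← Module.finrank_pi_fintype]
    let F : AA A B →ₗ[RatFunc k] (∀ I : MaximalSpectrum (AA A B), (comp hA hB I).E) :=
      LinearMap.pi fun I => (mkA hA hB I).toLinearMap
    refine LinearMap.finrank_le_finrank_of_surjective (f := F) ?_
    intro x
    have hcop : Pairwise fun I J : MaximalSpectrum (AA A B) => IsCoprime I.asIdeal J.asIdeal := by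
      intro I J hIJ
      have h1 := I.isMaximal
      have h2 := J.isMaximal
      exact Ideal.isCoprime_iff_sup_eq.2
        (h1.coprime_of_ne h2 (fun h => hIJ (MaximalSpectrum.ext h)))
    obtain ⟨a, ha⟩ := Ideal.pi_quotient_surjective hcop x
    exact ⟨a, funext fun I => ha I⟩
  · intro α β hα hβ
    obtain ⟨h, hy, hz⟩ := exists_hom hα hβ
    have hp : (RingHom.ker h).IsPrime := RingHom.ker_isPrime _
    have hm : (RingHom.ker h).IsMaximal := inferInstance
    have key : ∀ I : MaximalSpectrum (AA A B), I = ⟨RingHom.ker h, hm⟩ →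
        ∃ σ : (comp hA hB I).E →ₐ[RatFunc k] LL k, σ (comp hA hB I).y = α ∧
          σ (comp hA hB I).z = β := by
      rintro I rfl
      obtain ⟨σ, hσ⟩ := exists_lift hA hB ⟨RingHom.ker h, hm⟩ h (fun a ha => ha)
      refine ⟨σ, ?_, ?_⟩
      · rw [← mkA_y, hσ, hy]
      · rw [← mkA_z, hσ, hz]
    exact ⟨e ⟨RingHom.ker h, hm⟩, key _ (Equiv.symm_apply_apply _ _)⟩
  · intro i j σ τ hy hz
    have h1 : σ.comp (mkA hA hB (e.symm i)) = τ.comp (mkA hA hB (e.symm j)) :=
      eq_of_yz _ _ hy hz
    have h2 : (e.symm i).asIdeal = (e.symm j).asIdeal := by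
      ext a
      rw [← mkA_eq_zero hA hB, ← mkA_eq_zero hA hB, ← map_eq_zero_iff σ σ.toRingHom.injective,
        ← map_eq_zero_iff τ τ.toRingHom.injective]
      have h3 := congrArg (fun f : AA A B →ₐ[RatFunc k] LL k => f a) h1
      simp only [AlgHom.comp_apply] at h3
      rw [h3]
    exact e.symm.injective (MaximalSpectrum.ext h2)

end

end

end Pool.Agent.N558.CV
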