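import Pool.Agent.N162.CV.Stm

/-!
# CV/CUR, part 1: integrality and places (helper558)
-/

set_option autoImplicit false

open Polynomial FF Pool.Agent.W603.LV IntermediateField IsDedekindDomain

namespace Pool.Agent.N558.CV

open Pool.Agent.N162.CV

section

variable {k : Type} [Field k]

lemma aeval_two {E : Type*} [CommRing E] [Algebra k E] (A : MvPolynomial (Fin 2) k) (x y : E) :
    MvPolynomial.aeval ![x, y] A =
      ∑ m ∈ A.support, algebraMap k E (A.coeff m) * (x ^ m 0 * y ^ m 1) := by
  rw [MvPolynomial.aeval_def, MvPolynomial.eval₂_eq']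
  refine Finset.sum_congr rfl fun m _ => ?_
  rw [Fin.prod_univ_two]
  simp

lemma deg_le {A : MvPolynomial (Fin 2) k} {m : Fin 2 →₀ ℕ} (hm : m ∈ A.support) :
    m 0 + m 1 ≤ A.totalDegree := by
  have h1 := MvPolynomial.le_totalDegree hm
  rw [Finsupp.sum_fintype _ _ (fun _ => rfl), Fin.sum_univ_two] at h1
  exact h1

lemma eq_single {A : MvPolynomial (Fin 2) k} {m : Fin 2 →₀ ℕ} (hm : m ∈ A.support)
    (h : A.totalDegree ≤ m 1) : m = Finsupp.single 1 A.totalDegree := by
  have h1 := deg_le hm
  ext i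
  fin_cases i
  · simp
    omega
  · simp
    omega

/-- integrality of the roots of a homogeneous equation -/
theorem isIntegral_hom {V E : Type*} [CommRing V] [CommRing E] [Algebra k V] [Algebra V E]
    [Algebra k E] [IsScalarTower k V E] (A : MvPolynomial (Fin 2) k) (hA : MonicY A) (α β : V)
    (η : E)
    (h : ∑ m ∈ A.support, algebraMap k E (A.coeff m) * (algebraMap V E α ^ m 0 *
      algebraMap V E β ^ (A.totalDegree - m 0 - m 1) * η ^ m 1) = 0) : IsIntegral V η := by
  classical
  set a := A.totalDegree with ha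
  set m0 : Fin 2 →₀ ℕ := Finsupp.single 1 a with hm0
  set c := A.coeff m0 with hc
  have hc0 : c ≠ 0 := hA
  have hm0s : m0 ∈ A.support := MvPolynomial.mem_support_iff.2 hc0
  let g : (Fin 2 →₀ ℕ) → V := fun m =>
    algebraMap k V (c⁻¹ * A.coeff m) * (α ^ m 0 * β ^ (a - m 0 - m 1))
  let Q : V[X] := X ^ a + ∑ m ∈ A.support.erase m0, C (g m) * X ^ m 1
  have hQ : Q.Monic := by
    apply monic_X_pow_add
    rw [degree_lt_iff_coeff_zero]
    intro n hn
    rw [finsetSum_coeff]
    refine Finset.sum_eq_zero fun m hm => ?_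
    rw [Finset.mem_erase] at hm
    rw [coeff_C_mul_X_pow, if_neg]
    rintro rfl
    exact hm.1 (eq_single hm.2 hn)
  refine ⟨Q, hQ, ?_⟩
  have e0 : g m0 = 1 := by
    have f0 : m0 0 = 0 := by simp [hm0]
    have f1 : m0 1 = a := by simp [hm0]
    simp only [g]
    rw [← hc, inv_mul_cancel₀ hc0, map_one, f0, f1]
    simp
  have h1 : eval₂ (algebraMap V E) η Q = ∑ m ∈ A.support, algebraMap V E (g m) * η ^ m 1 := by
    rw [← Finset.add_sum_erase _ _ hm0s, e0, map_one, one_mul]
    simp only [Q, eval₂_add, eval₂_pow, eval₂_X, eval₂_finsetSum, eval₂_mul, eval₂_C]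
    congr 2
    simp [hm0]
  rw [h1]
  have h2 : ∑ m ∈ A.support, algebraMap V E (g m) * η ^ m 1 = algebraMap k E c⁻¹ *
      ∑ m ∈ A.support, algebraMap k E (A.coeff m) * (algebraMap V E α ^ m 0 *
      algebraMap V E β ^ (A.totalDegree - m 0 - m 1) * η ^ m 1) := by
    rw [Finset.mul_sum]
    refine Finset.sum_congr rfl fun m _ => ?_
    simp only [g]
    rw [map_mul, ← IsScalarTower.algebraMap_apply k V E, map_mul, map_mul, map_pow, map_pow]
    ring
  rw [h2, h, mul_zero]

/-- the roots are integral if `x` is -/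
theorem isIntegral_fin {V E : Type*} [CommRing V] [CommRing E] [Algebra k V] [Algebra V E]
    [Algebra k E] [IsScalarTower k V E] (A : MvPolynomial (Fin 2) k) (hA : MonicY A) (α : V)
    (η : E) (h : MvPolynomial.aeval ![algebraMap V E α, η] A = 0) : IsIntegral V η := by
  refine isIntegral_hom A hA α 1 η ?_
  rw [aeval_two] at h
  rw [← h]
  refine Finset.sum_congr rfl fun m _ => ?_
  rw [map_one, one_pow, mul_one]

/-- the quotients `y / x` are integral if `1 / x` is -/
theorem isIntegral_inf {V E : Type*} [CommRing V] [Field E] [Algebra k V] [Algebra V E]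
    [Algebra k E] [IsScalarTower k V E] (A : MvPolynomial (Fin 2) k) (hA : MonicY A) (β : V)
    (x η : E) (hx : x ≠ 0) (hβ : algebraMap V E β = x⁻¹)
    (h : MvPolynomial.aeval ![x, η] A = 0) : IsIntegral V (η / x) := by
  refine isIntegral_hom A hA 1 β (η / x) ?_
  rw [aeval_two] at h
  have h2 : ∑ m ∈ A.support, algebraMap k E (A.coeff m) * (algebraMap V E 1 ^ m 0 *
      algebraMap V E β ^ (A.totalDegree - m 0 - m 1) * (η / x) ^ m 1) =
      (x⁻¹) ^ A.totalDegree * ∑ m ∈ A.support, algebraMap k E (A.coeff m) * (x ^ m 0 * η ^ m 1) := by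
    rw [Finset.mul_sum]
    refine Finset.sum_congr rfl fun m hm => ?_
    rw [hβ, map_one, one_pow, one_mul]
    have h3 := deg_le hm
    obtain ⟨j, hj⟩ : ∃ j, A.totalDegree = j + m 0 + m 1 := ⟨A.totalDegree - m 0 - m 1, by omega⟩
    rw [hj, show j + m 0 + m 1 - m 0 - m 1 = j by omega, div_pow, pow_add, pow_add]
    simp only [inv_pow]
    field_simp
  rw [h2, h, mul_zero]

end

/-! ### finite extensions of `k(x)` -/

/-- a finite extension of `k(x)` with two elements -/
structure Bd (k : Type) [Field k] where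
  E : Type
  fld : Field E
  alg : Algebra (RatFunc k) E
  fd : FiniteDimensional (RatFunc k) E
  y : E
  z : E

section

variable {k : Type} [Field k]

instance (b : Bd k) : Field b.E := b.fld
noncomputable instance (b : Bd k) : Algebra (RatFunc k) b.E := b.alg
instance (b : Bd k) : FiniteDimensional (RatFunc k) b.E := b.fd
noncomputable instance (b : Bd k) : Algebra k[X] b.E :=
  ((algebraMap (RatFunc k) b.E).comp (algebraMap k[X] (RatFunc k))).toAlgebra
noncomputable instance (b : Bd k) : Algebra k b.E :=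
  ((algebraMap (RatFunc k) b.E).comp (algebraMap k (RatFunc k))).toAlgebra
instance (b : Bd k) : IsScalarTower k[X] (RatFunc k) b.E := IsScalarTower.of_algebraMap_eq' rfl
instance (b : Bd k) : IsScalarTower k (RatFunc k) b.E := IsScalarTower.of_algebraMap_eq' rfl
instance (b : Bd k) : IsScalarTower k k[X] b.E := by
  refine IsScalarTower.of_algebraMap_eq fun c => ?_
  rw [IsScalarTower.algebraMap_apply k[X] (RatFunc k) b.E,
    ← IsScalarTower.algebraMap_apply k k[X] (RatFunc k),
    IsScalarTower.algebraMap_apply k (RatFunc k) b.E]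

/-- the coordinate `x` -/
noncomputable def Bd.x (b : Bd k) : b.E := algebraMap (RatFunc k) b.E RatFunc.X

lemma Bd.x_eq (b : Bd k) : algebraMap k[X] b.E X = b.x := by
  rw [IsScalarTower.algebraMap_apply k[X] (RatFunc k) b.E, RatFunc.algebraMap_X]
  rfl

lemma Bd.inj (b : Bd k) : Function.Injective (algebraMap k[X] b.E) := by
  rw [IsScalarTower.algebraMap_eq k[X] (RatFunc k) b.E]
  exact (algebraMap (RatFunc k) b.E).injective.comp (RatFunc.algebraMap_injective k)

lemma Bd.x_ne (b : Bd k) : b.x ≠ 0 := by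
  rw [← b.x_eq]
  intro h
  exact X_ne_zero (b.inj (h.trans (map_zero _).symm))

/-- the algebraic closure of `k(x)` -/
abbrev LL (k : Type) [Field k] : Type := AlgebraicClosure (RatFunc k)

/-- the place of a homomorphism -/
theorem exists_place [CharZero k] (b : Bd k) (σ : b.E →ₐ[RatFunc k] LL k)
    (ρ : integralClosure k[X] (LL k) →+* k) (c : k)
    (hρ : ∀ P : k[X], ρ (algebraMap k[X] _ P) = P.eval c) :
    ∃ v : Place k b.E, ∀ (f : b.E) (_ : IsIntegral k[X] f) (g : integralClosure k[X] (LL k)),
      (g : LL k) = σ f → Ge v 1 (f - algebraMap k b.E (ρ g)) := by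
  classical
  have : Algebra.IsSeparable (RatFunc k) b.E := by
    have : CharZero (RatFunc k) := charZero_of_injective_algebraMap (algebraMap k (RatFunc k)).injective
    infer_instance
  let B := integralClosure k[X] b.E
  have : IsDedekindDomain B := integralClosure.isDedekindDomain k[X] (RatFunc k) b.E
  have : IsFractionRing B b.E := integralClosure.isFractionRing_of_finite_extension (RatFunc k) b.E
  have hsc : IsScalarTower k B b.E := by
    refine IsScalarTower.of_algebraMap_eq fun c => ?_
    rw [IsScalarTower.algebraMap_apply k k[X] B, ← IsScalarTower.algebraMap_apply k[X] B b.E,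
      ← IsScalarTower.algebraMap_apply k k[X] b.E]
  let τ : B →ₐ[k[X]] integralClosure k[X] (LL k) := (σ.restrictScalars k[X]).mapIntegralClosure
  let φ : B →+* k := ρ.comp τ.toRingHom
  have hφ : ∀ P : k[X], φ (algebraMap k[X] B P) = P.eval c := by
    intro P
    change ρ (τ (algebraMap k[X] B P)) = _
    rw [AlgHom.commutes, hρ]
  have hφc : ∀ a : k, φ (algebraMap k B a) = a := by
    intro a
    rw [IsScalarTower.algebraMap_apply k k[X] B, hφ, algebraMap_eq, eval_C]
  have hne : RingHom.ker φ ≠ ⊥ := by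
    intro h
    have h1 : algebraMap k[X] B (X - C c) ∈ RingHom.ker φ := by
      rw [RingHom.mem_ker, hφ]
      simp
    rw [h, Ideal.mem_bot] at h1
    have h2 : algebraMap k[X] b.E (X - C c) = 0 := by
      rw [IsScalarTower.algebraMap_apply k[X] B b.E, h1, map_zero]
    exact X_sub_C_ne_zero c (b.inj (h2.trans (map_zero _).symm))
  let P : HeightOneSpectrum B := ⟨RingHom.ker φ, RingHom.ker_isPrime φ, hne⟩
  refine ⟨placeOf (k := k) (L := b.E) P, fun f hf g hg => ?_⟩
  have h1 : (⟨f, hf⟩ : B) - algebraMap k B (ρ g) ∈ P.asIdeal := by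
    change _ ∈ RingHom.ker φ
    rw [RingHom.mem_ker, map_sub, hφc, sub_eq_zero]
    change ρ (τ ⟨f, hf⟩) = ρ g
    congr 1
    apply Subtype.ext
    exact hg.symm
  rw [← placeOf_red_eq_zero (k := k) (L := b.E) P, Place.red_eq_zero_iff _ (placeOf_reg P _)] at h1
  have h2 : algebraMap B b.E ((⟨f, hf⟩ : B) - algebraMap k B (ρ g)) =
      f - algebraMap k b.E (ρ g) := by
    rw [map_sub, ← IsScalarTower.algebraMap_apply k B b.E]
    rfl
  rw [h2] at h1
  exact h1

end

end Pool.Agent.N558.CV
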