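import Pool.Agent.N558.CV.Dec

/-!
# CV/CUR, part 3: function fields, minimal polynomials (helper558)
-/

set_option autoImplicit false

open Polynomial FF Pool.Agent.W603.LV IntermediateField IsDedekindDomain

namespace Pool.Agent.N558.CV

open Pool.Agent.N162.CV

section

variable {k : Type} [Field k] (b : Bd k)

lemma Bd.aeval_x (P : k[X]) : aeval b.x P = algebraMap k[X] b.E P := by
  rw [← b.x_eq, aeval_algebraMap_apply, aeval_X_left_apply]

lemma Bd.tr : Transcendental k b.x := by
  rw [transcendental_iff_injective]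
  intro P Q h
  rw [b.aeval_x, b.aeval_x] at h
  exact b.inj h

lemma Bd.mem_adjoin (r : RatFunc k) (K' : IntermediateField k b.E) (hx : b.x ∈ K') :
    algebraMap (RatFunc k) b.E r ∈ K' := by
  obtain ⟨p, q, hq, rfl⟩ := IsFractionRing.div_surjective (A := k[X]) r
  have h1 : ∀ p : k[X], algebraMap (RatFunc k) b.E (algebraMap k[X] (RatFunc k) p) ∈ K' := by
    intro p
    rw [← IsScalarTower.algebraMap_apply, ← b.aeval_x]
    exact Algebra.adjoin_le (S := K'.toSubalgebra) (Set.singleton_subset_iff.2 hx)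
      (Polynomial.aeval_mem_adjoin_singleton k b.x)
  rw [map_div₀]
  exact K'.div_mem (h1 p) (h1 q)

lemma Bd.surj_adjoin {u : b.E} (hu : u ∈ k⟮b.x⟯) : ∃ r, algebraMap (RatFunc k) b.E r = u := by
  have h : k⟮b.x⟯ ≤ (IsScalarTower.toAlgHom k (RatFunc k) b.E).fieldRange := by
    rw [IntermediateField.adjoin_simple_le_iff]
    exact ⟨RatFunc.X, rfl⟩
  exact h hu

lemma Bd.finrank_x : Module.finrank k⟮b.x⟯ b.E = Module.finrank (RatFunc k) b.E := by
  symm
  let f : RatFunc k →+* k⟮b.x⟯ := (algebraMap (RatFunc k) b.E).codRestrict k⟮b.x⟯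
    (fun r => b.mem_adjoin r _ (mem_adjoin_simple_self k b.x))
  have hf : Function.Bijective f := by
    constructor
    · exact f.injective
    · rintro ⟨u, hu⟩
      obtain ⟨r, hr⟩ := b.surj_adjoin hu
      exact ⟨r, Subtype.ext hr⟩
  refine Algebra.finrank_eq_of_equiv_equiv (RingEquiv.ofBijective f hf) (RingEquiv.refl b.E) ?_
  ext r
  rfl

lemma Bd.isFF : IsFF k b.E := by
  refine IsFF.of_finite b.tr ?_
  apply Module.finite_of_finrank_pos
  rw [b.finrank_x]
  exact Module.finrank_pos

/-- the coordinates -/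
noncomputable def Bd.XX : Fin 4 → b.E := ![1, b.x, b.y, b.z]

variable {A B : MvPolynomial (Fin 2) k} (hA : MonicY A) (hB : MonicY B)
  (hy : aeval b.y (eqn A) = 0) (hz : aeval b.z (eqn B) = 0)
  (hgen : Algebra.adjoin (RatFunc k) {b.y, b.z} = ⊤)

lemma integral_of {E : Type*} [CommRing E] [Algebra k[X] E] [Algebra (RatFunc k) E]
    [IsScalarTower k[X] (RatFunc k) E] (hA : MonicY A) {u : E} (hu : aeval u (eqn A) = 0) :
    IsIntegral k[X] u := by
  refine ⟨mpol A, mpol_monic hA, ?_⟩
  unfold eqn at hu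
  rw [aeval_map_algebraMap] at hu
  exact hu

lemma Bd.aeval_A {u : b.E} (hu : aeval u (eqn A) = 0) (hA : MonicY A) :
    MvPolynomial.aeval ![b.x, u] A = 0 := (eqn_aeval A hA u).1 hu

lemma Bd.reg_fin (v : Place k b.E) (hv : Ge v 0 b.x) {u : b.E} (hu : IsIntegral k[X] u) :
    Ge v 0 u := by
  refine v.reg_of_isIntegral (A := k[X]) (fun P => ?_) hu
  rw [← b.aeval_x]
  exact ge_aeval v hv P

lemma Bd.reg_inf (v : Place k b.E) (hv : v.ord b.x < 0) {u : b.E} (hA : MonicY A)
    (hu : aeval u (eqn A) = 0) : Ge v 0 (u / b.x) := by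
  let _ : Algebra k v.O := ((algebraMap k b.E).codRestrict v.O (fun c => v.reg_const c)).toAlgebra
  have : IsScalarTower k v.O b.E := IsScalarTower.of_algebraMap_eq fun c => rfl
  have hr : v.Reg (b.x)⁻¹ := Or.inr (by rw [v.ord_inv]; omega)
  have h1 : IsIntegral v.O (u / b.x) :=
    isIntegral_inf A hA ⟨b.x⁻¹, hr⟩ b.x u b.x_ne rfl (b.aeval_A hu hA)
  exact v.reg_of_isIntegral (A := v.O) (fun a => a.2) h1

include hgen in
lemma Bd.adjoin_top : IntermediateField.adjoin k (Set.range b.XX) = ⊤ := by
  rw [eq_top_iff]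
  intro u _
  have hx : b.x ∈ IntermediateField.adjoin k (Set.range b.XX) := subset_adjoin _ _ ⟨1, rfl⟩
  have hy' : b.y ∈ IntermediateField.adjoin k (Set.range b.XX) := subset_adjoin _ _ ⟨2, rfl⟩
  have hz' : b.z ∈ IntermediateField.adjoin k (Set.range b.XX) := subset_adjoin _ _ ⟨3, rfl⟩
  have hu : u ∈ Algebra.adjoin (RatFunc k) {b.y, b.z} := by rw [hgen]; trivial
  induction hu using Algebra.adjoin_induction with
  | mem u hu =>
    rcases hu with rfl | hu
    · exact hy'
    · rw [Set.mem_singleton_iff] at hu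
      rw [hu]
      exact hz'
  | algebraMap r => exact b.mem_adjoin r _ hx
  | add u v _ _ h1 h2 => exact add_mem (h1 trivial) (h2 trivial)
  | mul u v _ _ h1 h2 => exact mul_mem (h1 trivial) (h2 trivial)

include hA hB hy hz hgen in
/-- the coordinates are in good position -/
theorem Bd.good : Good k b.XX where
  one := rfl
  tr := b.tr
  fin := by
    intro v hv i
    change Ge v 0 b.x at hv
    fin_cases i
    · exact Ge.one
    · exact hv
    · exact b.reg_fin v hv (integral_of hA hy)
    · exact b.reg_fin v hv (integral_of hB hz)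
  inf := by
    intro v hv i
    change v.ord b.x < 0 at hv
    fin_cases i
    · right
      change 0 ≤ v.ord (1 / b.x)
      rw [one_div, v.ord_inv]
      omega
    · change Ge v 0 (b.x / b.x)
      rw [div_self b.x_ne]
      exact Ge.one
    · exact b.reg_inf v hv hA hy
    · exact b.reg_inf v hv hB hz
  gen := b.adjoin_top hgen

/-! ### the primitive element -/

/-- the projection -/
noncomputable def Bd.w (t : k) : b.E := b.y + algebraMap k b.E t * b.z

include hA hB hy hz in
lemma Bd.w_int (t : k) : IsIntegral k[X] (b.w t) := by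
  unfold Bd.w
  refine (integral_of hA hy).add (IsIntegral.mul ?_ (integral_of hB hz))
  rw [IsScalarTower.algebraMap_apply k k[X] b.E]
  exact isIntegral_algebraMap

/-- the equation of the projection -/
noncomputable def Bd.P (t : k) : k[X][X] := minpoly k[X] (b.w t)

include hA hB hy hz in
lemma Bd.P_map (t : k) : minpoly (RatFunc k) (b.w t) = (b.P t).map (algebraMap k[X] (RatFunc k)) :=
  minpoly.isIntegrallyClosed_eq_field_fractions' (RatFunc k) (b.w_int hA hB hy hz t)

include hA hB hy hz in
lemma Bd.P_monic (t : k) : (b.P t).Monic := minpoly.monic (b.w_int hA hB hy hz t)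

include hA hB hy hz in
lemma Bd.P_natDegree (t : k) (ht : (RatFunc k)⟮b.w t⟯ = ⊤) :
    (b.P t).natDegree = Module.finrank (RatFunc k) b.E := by
  rw [Field.primitive_element_iff_minpoly_natDegree_eq, b.P_map hA hB hy hz,
    (b.P_monic hA hB hy hz t).natDegree_map] at ht
  exact ht

include hA hB hy hz in
lemma Bd.P_coeff (t : k) (ht : (RatFunc k)⟮b.w t⟯ = ⊤) (j : ℕ) (hj : (b.P t).coeff j ≠ 0) :
    ((b.P t).coeff j).natDegree + j ≤ (b.P t).natDegree := by
  classical
  set V := (RatFunc.inftyValuation k).valuationSubring with hV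
  have hX0 : (RatFunc.X : RatFunc k) ≠ 0 := RatFunc.X_ne_zero
  let _ : Algebra V b.E := ((algebraMap (RatFunc k) b.E).comp (algebraMap V (RatFunc k))).toAlgebra
  have : IsScalarTower V (RatFunc k) b.E := IsScalarTower.of_algebraMap_eq' rfl
  have hcon : ∀ c : k, algebraMap k (RatFunc k) c ∈ V := by
    intro c
    rw [hV, Valuation.mem_valuationSubring_iff]
    by_cases hc : c = 0
    · rw [hc, map_zero, map_zero]
      exact zero_le_one
    · exact (RatFunc.inftyValuation.C k hc).le
  let _ : Algebra k V := ((algebraMap k (RatFunc k)).codRestrict V hcon).toAlgebra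
  have : IsScalarTower k V b.E := IsScalarTower.of_algebraMap_eq fun c => rfl
  have hXi : (RatFunc.X : RatFunc k)⁻¹ ∈ V := by
    rw [hV, Valuation.mem_valuationSubring_iff, ← one_div, RatFunc.inftyValuation.X_inv,
      ← WithZero.exp_zero, WithZero.exp_le_exp]
    norm_num
  have hβ : algebraMap V b.E ⟨(RatFunc.X : RatFunc k)⁻¹, hXi⟩ = b.x⁻¹ := by
    change algebraMap (RatFunc k) b.E (RatFunc.X)⁻¹ = _
    rw [map_inv₀]
    rfl
  -- integrality at infinity
  have hyi : IsIntegral V (b.y / b.x) :=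
    isIntegral_inf A hA ⟨_, hXi⟩ b.x b.y b.x_ne hβ (b.aeval_A hy hA)
  have hzi : IsIntegral V (b.z / b.x) :=
    isIntegral_inf B hB ⟨_, hXi⟩ b.x b.z b.x_ne hβ (b.aeval_A hz hB)
  have hti : IsIntegral V (algebraMap k b.E t) := by
    rw [IsScalarTower.algebraMap_apply k V b.E]
    exact isIntegral_algebraMap
  have hwi : IsIntegral V (b.w t / b.x) := by
    have e : b.w t / b.x = b.y / b.x + algebraMap k b.E t * (b.z / b.x) := by
      unfold Bd.w
      ring
    rw [e]
    exact hyi.add (hti.mul hzi)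
  set Q := minpoly (RatFunc k) (b.w t / b.x) with hQ
  have hQm : Q.Monic := minpoly.monic (IsIntegral.of_finite (RatFunc k) _)
  have hQc : ∀ j, Q.coeff j ∈ V := by
    intro j
    rw [hQ, minpoly.isIntegrallyClosed_eq_field_fractions' (RatFunc k) hwi, coeff_map]
    exact ((minpoly V (b.w t / b.x)).coeff j).2
  have hQd : Q.natDegree ≤ Module.finrank (RatFunc k) b.E := minpoly.natDegree_le _
  have hroot : aeval (b.w t) (Q.scaleRoots RatFunc.X) = 0 := by
    have h1 := scaleRoots_aeval_eq_zero (r := (RatFunc.X : RatFunc k)) (minpoly.aeval (RatFunc k)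
      (b.w t / b.x))
    have e : algebraMap (RatFunc k) b.E RatFunc.X * (b.w t / b.x) = b.w t :=
      mul_div_cancel₀ _ b.x_ne
    rw [e] at h1
    exact h1
  have hSm : (Q.scaleRoots RatFunc.X).Monic := (monic_scaleRoots_iff _).2 hQm
  have hfr := b.P_natDegree hA hB hy hz t ht
  have hmin : minpoly (RatFunc k) (b.w t) = Q.scaleRoots RatFunc.X := by
    have h1 := minpoly.dvd _ _ hroot
    have h2 := minpoly.monic (IsIntegral.of_finite (RatFunc k) (b.w t))
    have h3 := eq_leadingCoeff_mul_of_monic_of_dvd_of_natDegree_le h2 h1 (by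
      rw [natDegree_scaleRoots, b.P_map hA hB hy hz, (b.P_monic hA hB hy hz t).natDegree_map, hfr]
      exact hQd)
    rw [hSm.leadingCoeff, C_1, one_mul] at h3
    exact h3.symm
  have hQn : Q.natDegree = (b.P t).natDegree := by
    have h1 := congrArg natDegree hmin
    rw [natDegree_scaleRoots, b.P_map hA hB hy hz, (b.P_monic hA hB hy hz t).natDegree_map] at h1
    exact h1.symm
  have hjn : j ≤ (b.P t).natDegree := le_natDegree_of_ne_zero hj
  have hc : algebraMap k[X] (RatFunc k) ((b.P t).coeff j) =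
      Q.coeff j * RatFunc.X ^ ((b.P t).natDegree - j) := by
    rw [← coeff_map, ← b.P_map hA hB hy hz, hmin, coeff_scaleRoots, hQn]
  have hv := congrArg (RatFunc.inftyValuation k) hc
  rw [RatFunc.inftyValuation_apply, RatFunc.inftyValuation.polynomial k hj, map_mul, map_pow,
    RatFunc.inftyValuation.X, ← WithZero.exp_nsmul] at hv
  have hle : RatFunc.inftyValuation k (Q.coeff j) ≤ 1 := by
    have := hQc j
    rwa [hV, Valuation.mem_valuationSubring_iff] at this
  have h4 : WithZero.exp (((b.P t).coeff j).natDegree : ℤ) ≤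
      WithZero.exp ((((b.P t).natDegree - j : ℕ)) • (1 : ℤ)) := by
    rw [hv]
    exact mul_le_of_le_one_left' hle
  rw [WithZero.exp_le_exp] at h4
  simp only [nsmul_eq_mul, mul_one] at h4
  omega

end

end Pool.Agent.N558.CV
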